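import Mathlib

namespace Pool.Agent.H.MP_24a6f7_nt

/-- size bound when both omitted divisors have exponent below `m` -/
lemma bound1 (p K X Y P S pb pe : ℤ) (hp : 23 ≤ p) (hP : 1 ≤ P) (hS : p ^ 2 * P < S)
    (hK : 1 ≤ K) (hX : 0 < X) (hY : 0 < Y) (hpb : 0 < pb) (hpe : pe ≤ p ^ 2 * P)
    (hc : (pb = pe ∧ 2 * (X + Y) ≤ 3 * K) ∨ (p * pb ≤ pe ∧ X ≤ K ∧ Y ≤ K))
    (E : (2 * K - 1) * S = p ^ 3 * P + X * pb + Y * pe) : K ≤ 2 * p + 1 := by
  have hQ : 0 < p ^ 2 * P := by positivity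
  have h1 : 2 * (X * pb + Y * pe) ≤ 3 * K * (p ^ 2 * P) := by
    rcases hc with ⟨h, h2⟩ | ⟨h, h2, h3⟩
    · subst h
      have : 2 * (X + Y) * pb ≤ 3 * K * (p ^ 2 * P) :=
        mul_le_mul h2 hpe hpb.le (by positivity)
      nlinarith
    · have h4 : 2 * pb ≤ p ^ 2 * P := by nlinarith
      have h5 : X * (2 * pb) ≤ K * (p ^ 2 * P) := mul_le_mul h2 h4 (by positivity) (by positivity)
      have h6 : Y * pe ≤ K * (p ^ 2 * P) := mul_le_mul h3 hpe (by nlinarith) (by positivity)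
      nlinarith
  have h2 : (2 * K - 1) * (p ^ 2 * P) < (2 * K - 1) * S := by
    apply mul_lt_mul_of_pos_left hS; omega
  by_contra hc
  have h3 : 2 * p + 2 ≤ K := by omega
  have h4 : (2 * p + 2) * (p ^ 2 * P) ≤ K * (p ^ 2 * P) := mul_le_mul_of_nonneg_right h3 hQ.le
  nlinarith

/-- b = 1, e = 1 -/
lemma c11 (p K X Y P T : ℤ) (hp : 23 ≤ p) (hP : 1 ≤ P) (hT : P ≤ T)
    (hrel : (p - 1) * T = p * P - 1) (hK : 1 ≤ K) (hKb : K ≤ 2 * p + 1)
    (hXY : 2 * (X + Y) ≤ 3 * K)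
    (E : (2 * K - 1) * (1 + p + p ^ 2 * T) = p ^ 3 * P + X * p + Y * p) : False := by
  have hd : p ∣ 2 * K - 1 :=
    ⟨p ^ 2 * P + X + Y - (2 * K - 1) * (1 + p * T), by linear_combination E⟩
  obtain ⟨α, hα⟩ := hd
  have hα1 : 1 ≤ α := by
    by_contra h
    have : α ≤ 0 := by omega
    nlinarith
  have E2 : α * (1 + p + p ^ 2 * T) = p ^ 2 * P + X + Y := by
    have hp0 : p ≠ 0 := by omega
    apply mul_left_cancel₀ hp0
    rw [hα] at E
    linear_combination E
  rcases eq_or_lt_of_le hα1 with h | h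
  · subst h
    have : p ^ 2 * P ≤ p ^ 2 * T := mul_le_mul_of_nonneg_left hT (by positivity)
    nlinarith
  · have h2 : 2 ≤ α := by omega
    have h3 : p ^ 2 * P ≤ p ^ 2 * T := mul_le_mul_of_nonneg_left hT (by positivity)
    have h4 : p ^ 2 ≤ p ^ 2 * P := by nlinarith
    have h5 : 2 * (1 + p + p ^ 2 * T) ≤ α * (1 + p + p ^ 2 * T) :=
      mul_le_mul_of_nonneg_right h2 (by nlinarith)
    nlinarith

/-- b = 1, e ≥ 2 -/
lemma c12 (p K X Y P T T0 B : ℤ) (hp : 23 ≤ p) (hT0 : 0 ≤ T0) (hT : T = 1 + p * T0)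
    (hrel : (p - 1) * T = p * P - 1) (hK : 1 ≤ K) (hKb : K ≤ 2 * p + 1)
    (hX : 0 < X) (hXK : X ∣ K) (hY : Y ≤ K)
    (hodd : ∀ d : ℤ, 0 < d → d ∣ 2 * K → d % 2 = 1 → d = 1)
    (hB : B = 1 ∨ p ∣ B)
    (E : (2 * K - 1) * (1 + p + p ^ 2 * T) = p ^ 3 * P + X * p + Y * (p ^ 2 * B)) :
    T0 = 0 ∧ p = 2 * K - 1 := by
  have hp0 : p ≠ 0 := by omega
  have hd : p ∣ 2 * K - 1 :=
    ⟨p ^ 2 * P + X + Y * p * B - (2 * K - 1) * (1 + p * T), by linear_combination E⟩
  obtain ⟨α, hα⟩ := hd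
  have hα1 : 1 ≤ α := by
    by_contra h
    have : α ≤ 0 := by omega
    nlinarith
  have hα4 : α ≤ 4 := by
    by_contra h
    have : 5 ≤ α := by omega
    nlinarith
  have E2 : α * (1 + p + p ^ 2 * T) = p ^ 2 * P + X + Y * p * B := by
    apply mul_left_cancel₀ hp0
    rw [hα] at E
    linear_combination E
  have hd2 : p ∣ X - α := ⟨α * (1 + p * T) - p * P - Y * B, by linear_combination -E2⟩
  obtain ⟨j, hj⟩ := hd2
  have hXle : X ≤ K := Int.le_of_dvd (by omega) hXK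
  have hj0 : 0 ≤ j := by
    by_contra h
    have : j ≤ -1 := by omega
    nlinarith
  interval_cases α
  · have hj1 : j = 0 := by
      by_contra h
      have : 1 ≤ j := by omega
      nlinarith
    subst hj1
    have hX1 : X = 1 := by omega
    subst hX1
    have E3 : T = Y * B := by
      apply mul_left_cancel₀ hp0
      linear_combination E2 - p * hrel
    refine ⟨?_, by omega⟩
    rcases hB with h | ⟨c, hc⟩
    · subst h
      by_contra h
      have : 1 ≤ T0 := by omega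
      nlinarith
    · exfalso
      have : p ∣ 1 := ⟨Y * c - T0, by rw [hc] at E3; linear_combination E3 - hT⟩
      have := Int.le_of_dvd one_pos this
      omega
  · omega
  · exfalso
    have hj1 : j ≤ 1 := by
      by_contra h
      have : 2 ≤ j := by omega
      nlinarith
    interval_cases j
    · have h3 : X = 3 := by omega
      have := hodd X hX (Dvd.dvd.mul_left hXK 2) (by omega)
      omega
    · have h8 : X ∣ 8 := by
        have h1 : (8 : ℤ) = 3 * X - 2 * K := by omega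
        rw [h1]
        exact dvd_sub (Dvd.intro_left 3 rfl) (Dvd.dvd.mul_left hXK 2)
      have := Int.le_of_dvd (by norm_num) h8
      omega
  · omega

/-- b = 0, e = 0 -/
lemma c00 (p K X Y P T : ℤ) (hp : 23 ≤ p) (hP : 1 ≤ P) (hT : P ≤ T)
    (hK : 2 ≤ K) (hX : 0 < X) (hY : 0 < Y) (hXY : 2 * (X + Y) ≤ 3 * K)
    (E : (2 * K - 1) * (1 + p + p ^ 2 * T) = p ^ 3 * P + X + Y) : False := by
  have hp0 : p ≠ 0 := by omega
  have h3 : p ^ 2 * P ≤ p ^ 2 * T := mul_le_mul_of_nonneg_left hT (by positivity)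
  have hQ : 0 < p ^ 2 * P := by positivity
  have hM : 2 * K - 1 < p := by
    by_contra h
    have h1 : p ≤ 2 * K - 1 := by omega
    have h2 : p * (p + p ^ 2 * T) ≤ (2 * K - 1) * (p + p ^ 2 * T) :=
      mul_le_mul_of_nonneg_right h1 (by nlinarith)
    have h4 : p * (p ^ 2 * P) ≤ p * (p ^ 2 * T) := mul_le_mul_of_nonneg_left h3 (by omega)
    nlinarith
  have hd : p ∣ 2 * K - 1 - X - Y :=
    ⟨p ^ 2 * P - (2 * K - 1) * (1 + p * T), by linear_combination E⟩
  have h0 : 2 * K - 1 - X - Y = 0 := Int.eq_zero_of_dvd_of_nonneg_of_lt (by omega) (by omega) hd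
  have E2 : (2 * K - 1) * (1 + p * T) = p ^ 2 * P := by
    apply mul_left_cancel₀ hp0
    linear_combination E - h0
  have hd2 : p ∣ 2 * K - 1 := ⟨p * P - (2 * K - 1) * T, by linear_combination E2⟩
  have := Int.le_of_dvd (by omega) hd2
  omega

/-- b = 0, e ≥ 1 -/
lemma c01 (p K X Y P T B : ℤ) (hp : 23 ≤ p) (hP : 1 ≤ P) (hT : P ≤ T)
    (hK : 2 ≤ K) (hKb : K ≤ 2 * p + 1) (hX : 0 < X) (hXK : X ∣ K) (hY : Y ≤ K)
    (hB : B = 1 ∨ p ∣ B)
    (E : (2 * K - 1) * (1 + p + p ^ 2 * T) = p ^ 3 * P + X + Y * (p * B)) : False := by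
  have hp0 : p ≠ 0 := by omega
  have hXle : X ≤ K := Int.le_of_dvd (by omega) hXK
  have hd : p ∣ 2 * K - 1 - X :=
    ⟨p ^ 2 * P + Y * B - (2 * K - 1) * (1 + p * T), by linear_combination E⟩
  obtain ⟨α, hα⟩ := hd
  have hα1 : 1 ≤ α := by
    by_contra h
    have : α ≤ 0 := by omega
    nlinarith
  have hα4 : α ≤ 4 := by
    by_contra h
    have : 5 ≤ α := by omega
    nlinarith
  have E2 : α + (2 * K - 1) * (1 + p * T) = p ^ 2 * P + Y * B := by
    apply mul_left_cancel₀ hp0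
    linear_combination E - hα
  rcases hB with h | ⟨c, hc⟩
  · subst h
    have h1 : p ≤ 2 * K - 1 := by nlinarith
    have h2 : p * (p * T) ≤ (2 * K - 1) * (p * T) :=
      mul_le_mul_of_nonneg_right h1 (by nlinarith)
    have h3 : p ^ 2 * P ≤ p ^ 2 * T := mul_le_mul_of_nonneg_left hT (by positivity)
    nlinarith
  · have hd2 : p ∣ α + (2 * K - 1) :=
      ⟨p * P + Y * c - (2 * K - 1) * T, by rw [hc] at E2; linear_combination E2⟩
    obtain ⟨γ, hγ⟩ := hd2
    have hγ5 : γ ≤ 4 := by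
      by_contra h
      have : 5 ≤ γ := by omega
      nlinarith
    have hγα : α < γ := by
      by_contra h
      have : γ ≤ α := by omega
      nlinarith
    obtain ⟨t, ht⟩ := hXK
    have hd3 : X ∣ α * (α - 1) + γ :=
      ⟨2 * t * (γ - α) - γ, by
        have : α * (α + (2 * K - 1)) = γ * (2 * K - 1 - X) := by rw [hγ, hα]; ring
        rw [ht] at this
        linear_combination this⟩
    have h1 := Int.le_of_dvd (by nlinarith) hd3
    have h2 : X + α = p * (γ - α) := by linear_combination hγ - hα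
    have h3 : p ≤ p * (γ - α) := by nlinarith
    nlinarith

end Pool.Agent.H.MP_24a6f7_nt
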