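import Mathlib

namespace Pool.Agent.H.MP_24a6f7_nt

/-- b = e = m -/
lemma cmm (p K X Y P T : ℤ) (hp : 23 ≤ p) (hpo : p % 2 = 1) (hP : 1 ≤ P) (hT : P ≤ T)
    (hrel : (p - 1) * T = p * P - 1) (hPc : P = 1 ∨ p ≤ P)
    (hK : 1 ≤ K) (hX : 0 < X) (hXY : 2 * X ≤ Y) (hXdY : X ∣ Y) (hYK : Y ∣ K)
    (hodd : ∀ d : ℤ, 0 < d → d ∣ 2 * K → d % 2 = 1 → d = 1)
    (hcop : IsCoprime (p ^ 3 * P) (1 + p + p ^ 2 * T))
    (E : (2 * K - 1) * (1 + p + p ^ 2 * T) = p ^ 3 * P + X * (p ^ 3 * P) + Y * (p ^ 3 * P)) :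
    False := by
  have hQ : 0 < p ^ 3 * P := by positivity
  have hd : p ^ 3 * P ∣ 2 * K - 1 :=
    hcop.dvd_of_dvd_mul_right ⟨1 + X + Y, by linear_combination E⟩
  obtain ⟨u, hu⟩ := hd
  have hu1 : 1 ≤ u := by
    by_contra h
    have : u ≤ 0 := by omega
    nlinarith
  have E2 : u * (1 + p + p ^ 2 * T) = 1 + X + Y := by
    apply mul_left_cancel₀ hQ.ne'
    rw [hu] at E
    linear_combination E
  have E3 : 2 * K = p + u + (p - 1) * X + (p - 1) * Y := by
    linear_combination hu + (p - 1) * E2 - u * p ^ 2 * hrel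
  obtain ⟨s, hs⟩ := hXdY
  obtain ⟨t, ht⟩ := hYK
  have h1 : X ∣ p + u := ⟨2 * s * t - (p - 1) - (p - 1) * s, by
    rw [ht, hs] at E3; linear_combination -E3⟩
  have h1' := Int.le_of_dvd (by omega) h1
  have h2 : Y ∣ p + u + (p - 1) * X := ⟨2 * t - (p - 1), by
    rw [ht] at E3; linear_combination -E3⟩
  have h2' := Int.le_of_dvd (by nlinarith) h2
  have h3 : Y ≤ p * (p + u) := by nlinarith
  have h4 : p ^ 2 * P ≤ p ^ 2 * T := mul_le_mul_of_nonneg_left hT (by positivity)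
  have h5 : u * (p ^ 2 * P) ≤ u * (1 + p + p ^ 2 * T) :=
    mul_le_mul_of_nonneg_left (by nlinarith) (by omega)
  have h6 : u * (p ^ 2 * P) ≤ 2 * (p * (p + u)) := by omega
  have h7 : u * (p * P) ≤ 2 * (p + u) := by
    by_contra h
    have : 2 * (p + u) < u * (p * P) := by omega
    nlinarith
  rcases hPc with h | h
  · subst h
    have hu2 : u ≤ 2 := by
      by_contra h
      have : 3 ≤ u := by omega
      nlinarith
    have hpp : (p ^ 2 - p + 1) % 2 = 1 := by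
      obtain ⟨q, hq⟩ : ∃ q, p = 2 * q + 1 := ⟨p / 2, by omega⟩
      have : p ^ 2 - p + 1 = 2 * (2 * q ^ 2 + q) + 1 := by rw [hq]; ring
      omega
    interval_cases u
    · have := hodd (p ^ 2 - p + 1) (by nlinarith) ⟨p + 1, by linear_combination hu⟩ hpp
      nlinarith
    · omega
  · have h8 : u * (p * p) ≤ u * (p * P) :=
      mul_le_mul_of_nonneg_left (mul_le_mul_of_nonneg_left h (by omega)) (by omega)
    nlinarith

/-- set-up when the second omitted divisor has exponent `m` -/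
lemma setup3 (p K X Y P T pb : ℤ) (hp : 23 ≤ p) (hpo : p % 2 = 1) (hP : 1 ≤ P) (hT : P ≤ T)
    (hrel : (p - 1) * T = p * P - 1) (hX : 0 < X) (hY : 0 < Y) (hpb : 0 < pb)
    (hYK : Y ∣ K) (hodd : ∀ d : ℤ, 0 < d → d ∣ 2 * K → d % 2 = 1 → d = 1)
    (E : (2 * K - 1) * (1 + p + p ^ 2 * T) = p ^ 3 * P + X * pb + Y * (p ^ 3 * P)) :
    ∃ r : ℤ, 1 ≤ r ∧ r * (1 + p + p ^ 2 * T) = 1 + Y + X * pb ∧
      2 * K = p + r + (p - 1) * Y ∧ Y ∣ p + r ∧ 2 * Y ≤ p + r := by
  have hS : 0 < 1 + p + p ^ 2 * T := by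
    have : 0 < T := by omega
    positivity
  have E1 : (2 * K - 1 - (p - 1) * (1 + Y)) * (1 + p + p ^ 2 * T) = 1 + Y + X * pb := by
    linear_combination E - (1 + Y) * p ^ 2 * hrel
  have hr : 1 ≤ 2 * K - 1 - (p - 1) * (1 + Y) := by
    by_contra h
    have h1 : 2 * K - 1 - (p - 1) * (1 + Y) ≤ 0 := by omega
    have h2 := mul_nonpos_of_nonpos_of_nonneg h1 hS.le
    have : 0 < X * pb := by positivity
    omega
  obtain ⟨t, ht⟩ := hYK
  have hd : p + (2 * K - 1 - (p - 1) * (1 + Y)) = Y * (2 * t - (p - 1)) := by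
    rw [ht]; ring
  refine ⟨_, hr, E1, by ring, ⟨_, hd⟩, ?_⟩
  have h1 : 1 ≤ 2 * t - (p - 1) := by
    by_contra h
    have : 2 * t - (p - 1) ≤ 0 := by omega
    nlinarith
  have h2 : 2 ≤ 2 * t - (p - 1) := by omega
  nlinarith

/-- e = m, b = m - 1 -/
lemma cm1 (p K X Y P T : ℤ) (hp : 23 ≤ p) (hpo : p % 2 = 1) (hP : 1 ≤ P) (hT : P ≤ T)
    (hrel : (p - 1) * T = p * P - 1) (hPc : P = 1 ∨ p ≤ P)
    (hK : 1 ≤ K) (hKe : K % 2 = 0) (hX : 0 < X) (hY : 0 < Y) (hXK : X ≤ K)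
    (hXY : 2 * X ≤ Y ∨ Y ∣ X) (hYK : Y ∣ K)
    (hY4 : ¬ 4 ∣ Y → Y ≤ 2)
    (hYu : ∀ u : ℤ, 3 ≤ u → u % 2 = 1 → Y ∣ (u - 1) * (u + 1) → Y ≤ 2 * (u + 1))
    (hodd : ∀ d : ℤ, 0 < d → d ∣ 2 * K → d % 2 = 1 → d = 1)
    (hcop : IsCoprime (p ^ 2 * P) (1 + p + p ^ 2 * T))
    (E : (2 * K - 1) * (1 + p + p ^ 2 * T) = p ^ 3 * P + X * (p ^ 2 * P) + Y * (p ^ 3 * P)) :
    False := by
  have hQ : 0 < p ^ 2 * P := by positivity
  have hd : p ^ 2 * P ∣ 2 * K - 1 :=
    hcop.dvd_of_dvd_mul_right ⟨p + X + Y * p, by linear_combination E⟩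
  obtain ⟨u, hu⟩ := hd
  have hu1 : 1 ≤ u := by
    by_contra h
    have : u ≤ 0 := by omega
    nlinarith
  have hp2 : p ^ 2 % 4 = 1 := by
    obtain ⟨q, hq⟩ : ∃ q, p = 2 * q + 1 := ⟨p / 2, by omega⟩
    have : p ^ 2 = 4 * (q ^ 2 + q) + 1 := by rw [hq]; ring
    omega
  have huo : u % 2 = 1 := by
    by_contra h
    obtain ⟨q, hq⟩ : ∃ q, u = 2 * q := ⟨u / 2, by omega⟩
    have : 2 * K - 1 = 2 * (p ^ 2 * P * q) := by rw [hu, hq]; ring
    omega
  have h4 : p ^ 2 * P ≤ p ^ 2 * T := mul_le_mul_of_nonneg_left hT (by positivity)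
  rcases hXY with hXY | ⟨s, hs⟩
  · obtain ⟨r, hr, E1, E2, -, h2⟩ :=
      setup3 p K X Y P T (p ^ 2 * P) hp hpo hP hT hrel hX hY hQ hYK hodd E
    have hrY : r ≤ Y := by
      by_contra h
      have h5 : Y + 1 ≤ r := by omega
      have h6 : (Y + 1) * (1 + p + p ^ 2 * T) ≤ r * (1 + p + p ^ 2 * T) :=
        mul_le_mul_of_nonneg_right h5 (by nlinarith)
      have h7 : X * (p ^ 2 * P) ≤ Y * (p ^ 2 * T) := mul_le_mul (by omega) h4 hQ.le hY.le
      nlinarith
    have hYp : Y ≤ p := by omega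
    have h8 : 2 * K ≤ p + p * p := by nlinarith
    have h9 : P * u ≤ 1 := by
      by_contra h
      have : 2 ≤ P * u := by omega
      nlinarith
    have h10 : P * u = 1 := by
      have : 1 ≤ P * u := by nlinarith
      omega
    have h11 : 2 * K - 1 = p ^ 2 := by rw [hu, mul_assoc, h10, mul_one]
    omega
  · have E2 : u * (1 + p + p ^ 2 * T) = p + p * Y + X := by
      apply mul_left_cancel₀ hQ.ne'
      rw [hu] at E
      linear_combination E
    have E3 : u + p ^ 2 = 2 * p * K - (p - 1) * (p * Y + X) := by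
      linear_combination -p * hu - (p - 1) * E2 + u * p ^ 2 * hrel
    obtain ⟨t, ht⟩ := hYK
    have h1 : Y ∣ u + p ^ 2 := ⟨2 * p * t - (p - 1) * (p + s), by
      rw [ht, hs] at E3; linear_combination E3⟩
    have h1' := Int.le_of_dvd (by positivity) h1
    have h5 : u * (p ^ 2 * P) ≤ u * (p ^ 2 * T) := mul_le_mul_of_nonneg_left h4 (by omega)
    have h6 : K ≤ p * (Y + 1) := by nlinarith
    have h7 : u * (p * P) < 2 * (Y + 1) := by
      by_contra h
      have : 2 * (Y + 1) ≤ u * (p * P) := by omega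
      nlinarith
    have hone : u = 1 → False := by
      intro h
      subst h
      have : Y ≤ 2 := hY4 (fun h4 => by
        have := dvd_trans h4 h1
        omega)
      nlinarith
    rcases hPc with h | h
    · subst h
      have hu3 : 3 ≤ u := by
        by_contra h
        exact hone (by omega)
      have h8 : Y ∣ (u - 1) * (u + 1) := by
        have : (u - 1) * (u + 1) = u * (u + p ^ 2) - 2 * K := by linear_combination hu
        rw [this]
        exact dvd_sub (Dvd.dvd.mul_left h1 u) (Dvd.dvd.mul_left ⟨t, ht⟩ 2)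
      have := hYu u hu3 huo h8
      nlinarith
    · have h8 : u * (p * p) ≤ u * (p * P) :=
        mul_le_mul_of_nonneg_left (mul_le_mul_of_nonneg_left h (by omega)) (by omega)
      have hu2 : u ≤ 2 := by
        by_contra h
        have : 3 ≤ u := by omega
        nlinarith
      exact hone (by omega)

/-- e = m, b ≤ m - 2 -/
lemma cm2 (p K X Y P T pb : ℤ) (hp : 23 ≤ p) (hpo : p % 2 = 1) (hP : 1 ≤ P) (hT : P ≤ T)
    (hrel : (p - 1) * T = p * P - 1) (hPc : (P = 1 ∧ T = 1) ∨ p ≤ P)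
    (hK : 1 ≤ K) (hX : 0 < X) (hY : 0 < Y) (hXK : X ∣ K) (hYK : Y ∣ K)
    (hodd : ∀ d : ℤ, 0 < d → d ∣ 2 * K → d % 2 = 1 → d = 1)
    (hpb : 0 < pb) (hpb2 : pb ≤ p * P) (hb : pb = 1 ∨ pb = p ∨ p ^ 2 ∣ pb)
    (hcop : IsCoprime (p ^ 2) (1 + p + p ^ 2 * T))
    (E : (2 * K - 1) * (1 + p + p ^ 2 * T) = p ^ 3 * P + X * pb + Y * (p ^ 3 * P)) :
    False := by
  obtain ⟨r, hr, E1, E2, hd, h2⟩ :=
    setup3 p K X Y P T pb hp hpo hP hT hrel hX hY hpb hYK hodd E
  have hXle : X ≤ K := Int.le_of_dvd (by omega) hXK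
  have hYle : Y ≤ K := Int.le_of_dvd (by omega) hYK
  have h4 : p ^ 2 * P ≤ p ^ 2 * T := mul_le_mul_of_nonneg_left hT (by positivity)
  have h5 : X * pb ≤ K * (p * P) := mul_le_mul hXle hpb2 hpb.le (by omega)
  have h6 : r * (p ^ 2 * P) ≤ r * (p ^ 2 * T) := mul_le_mul_of_nonneg_left h4 (by omega)
  have h7 : K ≤ K * P := by nlinarith
  have h8 : (r * p ^ 2) * P ≤ (K * (p + 1)) * P := by nlinarith
  have h9 : r * p ^ 2 ≤ K * (p + 1) := le_of_mul_le_mul_right h8 (by omega)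
  have h10 : 4 * K ≤ (p + 1) * (p + r) := by nlinarith
  have h11 : 2 * r < p := by
    by_contra h
    have h12 : p + r ≤ 3 * r := by omega
    have h13 : (p + 1) * (p + r) ≤ (p + 1) * (3 * r) := mul_le_mul_of_nonneg_left h12 (by omega)
    have h14 : 4 * K * (p + 1) ≤ (p + 1) * (3 * r) * (p + 1) :=
      mul_le_mul_of_nonneg_right (by omega) (by omega)
    have h15 : r * (4 * p ^ 2) ≤ r * (3 * (p + 1) ^ 2) := by nlinarith
    have h16 : 4 * p ^ 2 ≤ 3 * (p + 1) ^ 2 := le_of_mul_le_mul_left h15 (by omega)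
    nlinarith
  have h12 : 4 * Y < 3 * p := by omega
  have h13 : 8 * K ≤ 3 * p * (p + 1) := by
    have : (p + 1) * (2 * (p + r)) ≤ (p + 1) * (3 * p) :=
      mul_le_mul_of_nonneg_left (by omega) (by omega)
    linarith
  have h15 : p ^ 2 ≤ p ^ 2 * P := le_mul_of_one_le_right (by positivity) hP
  have hpp : 23 * p ≤ p ^ 2 := by nlinarith
  have h14 : 1 + p + p ^ 2 * T ≤ r * (1 + p + p ^ 2 * T) :=
    le_mul_of_one_le_left (by linarith) hr
  rcases hb with h | h | ⟨c, hc⟩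
  · subst h
    nlinarith
  · subst h
    rcases hPc with ⟨h, h'⟩ | h
    · subst h h'
      have hd2 : pb ∣ r - 1 - Y := ⟨X - r * (1 + pb), by linear_combination E1⟩
      obtain ⟨j, hj⟩ := hd2
      have hj0 : j = 0 := by
        by_contra h
        rcases lt_or_gt_of_ne h with h | h
        · have : j ≤ -1 := by omega
          nlinarith
        · have : 1 ≤ j := by omega
          nlinarith
      subst hj0
      have hr2 : r = 1 + Y := by omega
      have hX2 : X = r * (1 + pb) := by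
        apply mul_left_cancel₀ hpb.ne'
        linear_combination -E1 + hr2
      by_cases hYo : Y % 2 = 1
      · have := hodd Y hY (Dvd.dvd.mul_left hYK 2) hYo
        subst this
        omega
      · have := hodd r (by omega) (Dvd.dvd.mul_left (dvd_trans ⟨_, hX2⟩ hXK) 2) (by omega)
        omega
    · have h16 : pb ^ 2 * pb ≤ pb ^ 2 * P := mul_le_mul_of_nonneg_left h (by positivity)
      have h17 : X * pb ≤ K * pb := mul_le_mul_of_nonneg_right hXle (by omega)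
      have h18 : 8 * K * pb ≤ 3 * pb * (pb + 1) * pb := mul_le_mul_of_nonneg_right h13 (by omega)
      nlinarith
  · have hd2 : p ^ 2 ∣ 2 * K - 1 :=
      hcop.dvd_of_dvd_mul_right ⟨p * P + X * c + Y * (p * P), by rw [hc] at E; linear_combination E⟩
    have := Int.le_of_dvd (by omega) hd2
    nlinarith

end Pool.Agent.H.MP_24a6f7_nt
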