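import Pool.Agent.H.MP_24a6f7_nt.A
import Pool.Agent.H.MP_24a6f7_nt.B

namespace Pool.Agent.H.MP_24a6f7_nt
open Finset

lemma odd_dvd_two_pow (k : ℕ) (d : ℤ) (h0 : 0 < d) (h : d ∣ 2 * 2 ^ k) (ho : d % 2 = 1) : d = 1 := by
  have h1 : IsCoprime d 2 := ⟨1, -(d / 2), by omega⟩
  have h2 : IsCoprime d (2 ^ (k + 1)) := h1.pow_right
  have h3 : d ∣ 2 ^ (k + 1) := by rw [pow_succ']; exact h
  have := h2.isUnit_of_dvd' dvd_rfl h3
  rcases Int.isUnit_iff.1 this with h | h <;> omega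

lemma two_pow_cmp (a c k : ℕ) (ha : a ≤ k) (hc : c ≤ k) (h : a ≠ c) :
    2 * ((2 : ℤ) ^ a + 2 ^ c) ≤ 3 * 2 ^ k := by
  have key : ∀ a c : ℕ, a < c → c ≤ k → 2 * ((2 : ℤ) ^ a + 2 ^ c) ≤ 3 * 2 ^ k := by
    intro a c h1 h2
    have h3 : (2 : ℤ) ^ (a + 1) ≤ 2 ^ k := pow_le_pow_right₀ (by norm_num) (by omega)
    have h4 : (2 : ℤ) ^ c ≤ 2 ^ k := pow_le_pow_right₀ (by norm_num) h2
    rw [pow_succ] at h3
    linarith
  rcases lt_or_gt_of_ne h with h | h
  · exact key a c h hc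
  · have := key c a h ha
    linarith

lemma four_lem (c : ℕ) (h : ¬ (4 : ℤ) ∣ 2 ^ c) : (2 : ℤ) ^ c ≤ 2 := by
  by_contra h1
  apply h
  have : 2 ≤ c := by
    by_contra h2
    have : c ≤ 1 := by omega
    interval_cases c <;> simp at h1
  exact (show (4 : ℤ) = 2 ^ 2 by norm_num) ▸ pow_dvd_pow 2 this

lemma u_lem (c : ℕ) (u : ℤ) (h3 : 3 ≤ u) (ho : u % 2 = 1) (h : (2 : ℤ) ^ c ∣ (u - 1) * (u + 1)) :
    (2 : ℤ) ^ c ≤ 2 * (u + 1) := by
  obtain ⟨q, hq⟩ : ∃ q, u = 2 * q + 1 := ⟨u / 2, by omega⟩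
  have e : (u - 1) * (u + 1) = (4 * q) * (q + 1) := by rw [hq]; ring
  rw [e] at h
  by_cases hqo : q % 2 = 1
  · have h1 : IsCoprime (2 : ℤ) q := ⟨-(q / 2), 1, by omega⟩
    have h2 : (2 : ℤ) ^ c ∣ 4 * (q + 1) :=
      (h1.pow_left (m := c)).dvd_of_dvd_mul_left (by
        have : q * (4 * (q + 1)) = 4 * q * (q + 1) := by ring
        rw [this]; exact h)
    have := Int.le_of_dvd (by omega) h2
    omega
  · have h1 : IsCoprime (2 : ℤ) (q + 1) := ⟨-(q / 2), 1, by omega⟩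
    have h2 : (2 : ℤ) ^ c ∣ 4 * q := (h1.pow_left (m := c)).dvd_of_dvd_mul_right h
    have := Int.le_of_dvd (by omega) h2
    omega

lemma core0 (p : ℤ) (n k a b c e : ℕ) (hp : 23 ≤ p) (hpo : p % 2 = 1) (hk : 1 ≤ k)
    (ha : a ≤ k) (hc : c ≤ k) (hbe : b ≤ e) (he : e ≤ n + 3) (hne : b = e → a < c)
    (E : (2 * 2 ^ k - 1) * (∑ i ∈ range (n + 3), p ^ i) =
      p ^ (n + 3) + 2 ^ a * p ^ b + 2 ^ c * p ^ e) : n = 0 ∧ p = 2 * 2 ^ k - 1 := by
  have hp0 : 0 < p := by omega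
  have hp1 : 1 ≤ p := by omega
  set T0 := ∑ i ∈ range n, p ^ i with hT0
  set T := ∑ i ∈ range (n + 1), p ^ i with hTd
  have hT : T = 1 + p * T0 := by rw [hTd, geom_sum_succ]; ring
  have hS : ∑ i ∈ range (n + 3), p ^ i = 1 + p + p ^ 2 * T := by
    rw [geom_sum_succ, geom_sum_succ]; ring
  have hrel : (p - 1) * T = p * p ^ n - 1 := by rw [hTd, mul_geom_sum]; ring
  have hP : 1 ≤ p ^ n := one_le_pow₀ hp1
  have hT0n : 0 ≤ T0 := sum_nonneg fun i _ => by positivity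
  have hPT : p ^ n ≤ T := by
    by_contra h
    have : T + 1 ≤ p ^ n := by omega
    nlinarith
  have hPc : (p ^ n = 1 ∧ T = 1) ∨ p ≤ p ^ n := by
    rcases Nat.eq_zero_or_pos n with h | h
    · left; subst h; simp [hTd]
    · right; exact le_self_pow₀ hp1 h.ne'
  have hPc' : p ^ n = 1 ∨ p ≤ p ^ n := hPc.imp_left And.left
  have hK2 : (2 : ℤ) ≤ 2 ^ k := le_self_pow₀ (by norm_num) (by omega)
  have hKe : (2 : ℤ) ^ k % 2 = 0 := Int.emod_eq_zero_of_dvd (dvd_pow_self 2 (by omega))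
  have hXK : (2 : ℤ) ^ a ∣ 2 ^ k := pow_dvd_pow 2 ha
  have hYK : (2 : ℤ) ^ c ∣ 2 ^ k := pow_dvd_pow 2 hc
  have hX : (0 : ℤ) < 2 ^ a := by positivity
  have hY : (0 : ℤ) < 2 ^ c := by positivity
  have hXle := Int.le_of_dvd (by omega) hXK
  have hYle := Int.le_of_dvd (by omega) hYK
  have hodd := odd_dvd_two_pow k
  have hcop : IsCoprime p (1 + p + p ^ 2 * T) := ⟨-(1 + p * T), 1, by ring⟩
  have hm : p ^ (n + 3) = p ^ 3 * p ^ n := by ring
  have hcmp : a < c → 2 * (2 : ℤ) ^ a ≤ 2 ^ c := fun h => by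
    rw [← pow_succ']; exact pow_le_pow_right₀ (by norm_num) h
  rw [hS, hm] at E
  rcases eq_or_lt_of_le he with he' | he'
  · exfalso
    subst he'
    rw [hm] at E
    rcases eq_or_lt_of_le hbe with h | h
    · have hac := hne h
      rw [h, hm] at E
      exact cmm p _ _ _ _ T hp hpo hP hPT hrel hPc' (by omega) hX (hcmp hac)
        (pow_dvd_pow 2 hac.le) hYK hodd (by rw [← hm]; exact hcop.pow_left) E
    · rcases eq_or_lt_of_le (Nat.le_of_lt_succ h) with h' | h'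
      · have hm2 : p ^ (n + 2) = p ^ 2 * p ^ n := by ring
        rw [h', hm2] at E
        refine cm1 p _ _ _ _ T hp hpo hP hPT hrel hPc' (by omega) hKe hX hY hXle ?_ hYK
          (four_lem c) (u_lem c) hodd (by rw [← hm2]; exact hcop.pow_left) E
        rcases lt_or_ge a c with h | h
        · exact Or.inl (hcmp h)
        · exact Or.inr (pow_dvd_pow 2 h)
      · refine cm2 p _ _ _ _ T (p ^ b) hp hpo hP hPT hrel hPc (by omega) hX hY hXK hYK hodd
          (by positivity) ?_ ?_ hcop.pow_left E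
        · rw [← pow_succ']; exact pow_le_pow_right₀ hp1 (by omega)
        · rcases Nat.lt_or_ge b 2 with h | h
          · interval_cases b <;> simp
          · exact Or.inr (Or.inr (pow_dvd_pow p h))
  · have hpe : p ^ e ≤ p ^ 2 * p ^ n := by
      rw [← pow_add]; exact pow_le_pow_right₀ hp1 (by omega)
    have hS2 : p ^ 2 * p ^ n < 1 + p + p ^ 2 * T := by
      have : p ^ 2 * p ^ n ≤ p ^ 2 * T := mul_le_mul_of_nonneg_left hPT (by positivity)
      omega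
    have hKb : (2 : ℤ) ^ k ≤ 2 * p + 1 := by
      refine bound1 p _ _ _ _ _ (p ^ b) (p ^ e) hp hP hS2 (by omega) hX hY (by positivity) hpe ?_ E
      rcases eq_or_lt_of_le hbe with h | h
      · exact Or.inl ⟨by rw [h], two_pow_cmp a c k ha hc (hne h).ne⟩
      · refine Or.inr ⟨?_, hXle, hYle⟩
        rw [← pow_succ']; exact pow_le_pow_right₀ hp1 h
    have hB : ∀ j : ℕ, p ^ j = 1 ∨ p ∣ p ^ j := fun j => by
      rcases Nat.eq_zero_or_pos j with h | h
      · left; simp [h]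
      · right; exact dvd_pow_self p h.ne'
    rcases Nat.lt_or_ge b 2 with hb | hb
    · interval_cases b
      · exfalso
        rcases Nat.eq_zero_or_pos e with h | h
        · subst h
          exact c00 p _ _ _ _ T hp hP hPT hK2 hX hY (two_pow_cmp a c k ha hc (hne rfl).ne)
            (by simpa using E)
        · obtain ⟨j, rfl⟩ : ∃ j, e = j + 1 := ⟨e - 1, by omega⟩
          exact c01 p _ _ _ _ T (p ^ j) hp hP hPT hK2 hKb hX hXK hYle (hB j)
            (by rw [E]; ring)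
      · rcases eq_or_lt_of_le hbe with h | h
        · exfalso
          subst h
          exact c11 p _ _ _ _ T hp hP hPT hrel (by omega) hKb
            (two_pow_cmp a c k ha hc (hne rfl).ne) (by simpa using E)
        · obtain ⟨j, rfl⟩ : ∃ j, e = j + 2 := ⟨e - 2, by omega⟩
          obtain ⟨h1, h2⟩ := c12 p _ _ _ (p ^ n) T T0 (p ^ j) hp hT0n hT hrel (by omega) hKb hX hXK
            hYle hodd (hB j) (by rw [E]; ring)
          refine ⟨?_, h2⟩
          by_contra hn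
          have : 0 < T0 := sum_pos (fun i _ => by positivity) ⟨0, by simp; omega⟩
          omega
    · exfalso
      obtain ⟨i, rfl⟩ : ∃ j, b = j + 2 := ⟨b - 2, by omega⟩
      obtain ⟨j, rfl⟩ : ∃ j, e = j + 2 := ⟨e - 2, by omega⟩
      have hd : p ^ 2 ∣ 2 * 2 ^ k - 1 :=
        (hcop.pow_left (m := 2)).dvd_of_dvd_mul_right
          ⟨p * p ^ n + 2 ^ a * p ^ i + 2 ^ c * p ^ j, by rw [E]; ring⟩
      have := Int.le_of_dvd (by omega) hd
      nlinarith

lemma core (p : ℤ) (n k a b c e : ℕ) (hp : 23 ≤ p) (hpo : p % 2 = 1) (hk : 1 ≤ k)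
    (ha : a ≤ k) (hc : c ≤ k) (hb : b ≤ n + 3) (he : e ≤ n + 3) (hne : b = e → a ≠ c)
    (E : (2 * 2 ^ k - 1) * (∑ i ∈ range (n + 3), p ^ i) =
      p ^ (n + 3) + 2 ^ a * p ^ b + 2 ^ c * p ^ e) : n = 0 ∧ p = 2 * 2 ^ k - 1 := by
  rcases lt_trichotomy b e with h | h | h
  · exact core0 p n k a b c e hp hpo hk ha hc h.le he (by omega) E
  · rcases lt_or_gt_of_ne (hne h) with h' | h'
    · exact core0 p n k a b c e hp hpo hk ha hc h.le he (by omega) E
    · exact core0 p n k c e a b hp hpo hk hc ha h.ge hb (by omega) (by rw [E]; ring)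
  · exact core0 p n k c e a b hp hpo hk hc ha h.le hb (by omega) (by rw [E]; ring)

/-- for fixed `p, m` the power of two is bounded -/
lemma kbound (K X Y S Q pb pe : ℤ) (hS : 1 ≤ S) (hQ : 1 ≤ Q) (hX : 0 < X) (hY : 0 < Y)
    (hXY : X ∣ Y) (hYK : Y ∣ K) (hK : 0 < K) (hpb : 0 < pb) (hpb' : pb ≤ Q) (hpe : 0 < pe)
    (hpe' : pe ≤ Q) (E : (2 * K - 1) * S = Q + X * pb + Y * pe) :
    K ≤ (S + Q) * (1 + Q) ^ 2 := by
  obtain ⟨s, hs⟩ := hXY
  obtain ⟨t, ht⟩ := hYK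
  have h1 : X ∣ S + Q := ⟨2 * s * t * S - pb - s * pe, by rw [ht, hs] at E; linear_combination -E⟩
  have h1' := Int.le_of_dvd (by omega) h1
  have h2 : Y ∣ S + Q + X * pb := ⟨2 * t * S - pe, by rw [ht] at E; linear_combination -E⟩
  have h2' := Int.le_of_dvd (by positivity) h2
  have h3 : X * pb ≤ (S + Q) * Q := mul_le_mul h1' hpb' hpb.le (by omega)
  have h4 : Y * pe ≤ ((S + Q) * (1 + Q)) * Q :=
    mul_le_mul (by linarith) hpe' hpe.le (by positivity)
  have h5 : K ≤ K * S := le_mul_of_one_le_right hK.le hS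
  have h6 : 0 ≤ K * S := by positivity
  nlinarith

end Pool.Agent.H.MP_24a6f7_nt
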