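import Mathlib

namespace Pool.Agent.H.MP_24a6f7_nt

/-- `n` is 2-near perfect: `σ(n) = 2n + d₁ + d₂` for two distinct positive divisors of `n > 0`. -/
def TwoNear (n : ℕ) : Prop :=
  0 < n ∧ ∃ d₁ d₂ : ℕ, 0 < d₁ ∧ 0 < d₂ ∧ d₁ ∣ n ∧ d₂ ∣ n ∧ d₁ ≠ d₂ ∧
    ∑ d ∈ n.divisors, d = 2 * n + d₁ + d₂

/-- the 2-near perfect numbers of the form `2^k p^m`, `k ≥ 1`, `p` an odd prime -/
def Sol (m : ℕ) : Set ℕ :=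
  {n | TwoNear n ∧ ∃ k p : ℕ, 1 ≤ k ∧ p.Prime ∧ Odd p ∧ n = 2 ^ k * p ^ m}

/-- the numbers `2^k p^3` with `k ≥ 1` and `p = 2^(k+1) - 1` a (Mersenne) prime -/
def Mers : Set ℕ :=
  {n | ∃ k : ℕ, 1 ≤ k ∧ (2 ^ (k + 1) - 1).Prime ∧ n = 2 ^ k * (2 ^ (k + 1) - 1) ^ 3}

end Pool.Agent.H.MP_24a6f7_nt
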