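import Pool.Agent.H.MP_24a6f7_nt.C
import Pool.Agent.H.MP_24a6f7_nt.Defs

namespace Pool.Agent.H.MP_24a6f7_nt
open Finset

lemma sigma_eq (k p m : ℕ) (hp : p.Prime) (ho : Odd p) :
    ((∑ d ∈ (2 ^ k * p ^ m).divisors, d : ℕ) : ℤ) =
      (2 * 2 ^ k - 1) * (∑ i ∈ range m, (p : ℤ) ^ i + p ^ m) := by
  have hc : (2 ^ k).Coprime (p ^ m) := Nat.Coprime.pow _ _ (Nat.coprime_two_left.2 ho)
  rw [Nat.Coprime.sum_divisors_mul hc, Nat.sum_divisors_prime_pow Nat.prime_two,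
    Nat.sum_divisors_prime_pow hp]
  push_cast
  have h2 := mul_geom_sum (2 : ℤ) (k + 1)
  rw [sum_range_succ (fun i => (p : ℤ) ^ i) m]
  congr 1
  rw [pow_succ'] at h2
  linarith

lemma eqn (k p m : ℕ) (hp : p.Prime) (ho : Odd p) (h : TwoNear (2 ^ k * p ^ m)) :
    ∃ a b c e : ℕ, a ≤ k ∧ c ≤ k ∧ b ≤ m ∧ e ≤ m ∧ (b = e → a ≠ c) ∧
      (2 * 2 ^ k - 1) * (∑ i ∈ range m, (p : ℤ) ^ i) =
        (p : ℤ) ^ m + 2 ^ a * (p : ℤ) ^ b + 2 ^ c * (p : ℤ) ^ e := by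
  obtain ⟨-, d₁, d₂, -, -, h1, h2, hne, E⟩ := h
  obtain ⟨x, y, hx, hy, rfl⟩ := dvd_mul.1 h1
  obtain ⟨z, w, hz, hw, rfl⟩ := dvd_mul.1 h2
  obtain ⟨a, ha, rfl⟩ := (Nat.dvd_prime_pow Nat.prime_two).1 hx
  obtain ⟨b, hb, rfl⟩ := (Nat.dvd_prime_pow hp).1 hy
  obtain ⟨c, hc, rfl⟩ := (Nat.dvd_prime_pow Nat.prime_two).1 hz
  obtain ⟨e, he, rfl⟩ := (Nat.dvd_prime_pow hp).1 hw
  refine ⟨a, b, c, e, ha, hc, hb, he, fun h h' => hne (by rw [h, h']), ?_⟩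
  have h3 := sigma_eq k p m hp ho
  rw [E] at h3
  push_cast at h3
  linear_combination -h3

lemma fin_fixed (p m : ℕ) (hm : 1 ≤ m) (hp : p.Prime) (ho : Odd p) :
    {n | TwoNear n ∧ ∃ k : ℕ, n = 2 ^ k * p ^ m}.Finite := by
  set S : ℤ := ∑ i ∈ range m, (p : ℤ) ^ i with hS
  set Q : ℤ := (p : ℤ) ^ m with hQ
  have hp1 : (1 : ℤ) ≤ p := by exact_mod_cast hp.one_le
  have hS1 : 1 ≤ S := by
    have : 0 < S := sum_pos (fun i _ => by positivity) ⟨0, by simp; omega⟩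
    omega
  have hQ1 : 1 ≤ Q := one_le_pow₀ hp1
  refine (Set.finite_le_nat (((S + Q) * (1 + Q) ^ 2 * Q).toNat)).subset ?_
  rintro n ⟨h, k, rfl⟩
  obtain ⟨a, b, c, e, ha, hc, hb, he, -, E⟩ := eqn k p m hp ho h
  have hK : (2 : ℤ) ^ k ≤ (S + Q) * (1 + Q) ^ 2 := by
    rcases le_total a c with h | h
    · exact kbound _ (2 ^ a) (2 ^ c) S Q (p ^ b) (p ^ e) hS1 hQ1 (by positivity) (by positivity)
        (pow_dvd_pow 2 h) (pow_dvd_pow 2 hc) (by positivity) (by positivity)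
        (pow_le_pow_right₀ hp1 hb) (by positivity) (pow_le_pow_right₀ hp1 he) E
    · exact kbound _ (2 ^ c) (2 ^ a) S Q (p ^ e) (p ^ b) hS1 hQ1 (by positivity) (by positivity)
        (pow_dvd_pow 2 h) (pow_dvd_pow 2 ha) (by positivity) (by positivity)
        (pow_le_pow_right₀ hp1 he) (by positivity) (pow_le_pow_right₀ hp1 hb) (by rw [E]; ring)
  simp only [Set.mem_setOf_eq]
  rw [Int.le_toNat (by positivity)]
  push_cast
  exact mul_le_mul_of_nonneg_right hK (by omega)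

lemma fin_small (m : ℕ) (hm : 1 ≤ m) :
    {n | TwoNear n ∧ ∃ k p : ℕ, p < 23 ∧ p.Prime ∧ Odd p ∧ n = 2 ^ k * p ^ m}.Finite := by
  have h := (Set.finite_lt_nat 23).biUnion
    (t := fun p => {n | p.Prime ∧ Odd p ∧ TwoNear n ∧ ∃ k : ℕ, n = 2 ^ k * p ^ m})
    (fun p _ => by
      by_cases hp : p.Prime ∧ Odd p
      · exact (fin_fixed p m hm hp.1 hp.2).subset fun n hn => hn.2.2
      · exact Set.finite_empty.subset fun n hn => hp ⟨hn.1, hn.2.1⟩)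
  refine h.subset ?_
  rintro n ⟨h1, k, p, h2, h3, h4, h5⟩
  exact Set.mem_biUnion (x := p) h2 ⟨h3, h4, h1, k, h5⟩

lemma large (k p n : ℕ) (hk : 1 ≤ k) (hp : p.Prime) (ho : Odd p) (h23 : 23 ≤ p)
    (h : TwoNear (2 ^ k * p ^ (n + 3))) : n = 0 ∧ p = 2 ^ (k + 1) - 1 := by
  obtain ⟨a, b, c, e, ha, hc, hb, he, hne, E⟩ := eqn k p (n + 3) hp ho h
  have ho' : (p : ℤ) % 2 = 1 := by
    obtain ⟨q, hq⟩ := ho
    omega
  obtain ⟨h1, h2⟩ := core p n k a b c e (by exact_mod_cast h23) ho' hk ha hc hb he hne E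
  refine ⟨h1, ?_⟩
  have h3 : (p : ℤ) + 1 = 2 ^ (k + 1) := by rw [pow_succ']; linarith
  have h4 : p + 1 = 2 ^ (k + 1) := by exact_mod_cast h3
  omega

lemma fin_ge4 (m : ℕ) (hm : 4 ≤ m) : (Sol m).Finite := by
  refine (fin_small m (by omega)).subset ?_
  rintro x ⟨h, k, p, hk, hp, ho, rfl⟩
  refine ⟨h, k, p, ?_, hp, ho, rfl⟩
  by_contra h23
  obtain ⟨n, rfl⟩ : ∃ n, m = n + 3 := ⟨m - 3, by omega⟩
  have := (large k p n hk hp ho (by omega) h).1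
  omega

lemma fin_three : (Sol 3 \ Mers).Finite := by
  refine (fin_small 3 (by omega)).subset ?_
  rintro x ⟨⟨h, k, p, hk, hp, ho, rfl⟩, hn⟩
  refine ⟨h, k, p, ?_, hp, ho, rfl⟩
  by_contra h23
  have := (large k p 0 hk hp ho (by omega) h).2
  subst this
  exact hn ⟨k, hk, hp, rfl⟩

lemma mers_sub : Mers ⊆ Sol 3 := by
  rintro x ⟨k, hk, hp, rfl⟩
  obtain ⟨p, hp'⟩ : ∃ p, p = 2 ^ (k + 1) - 1 := ⟨_, rfl⟩
  rw [← hp'] at hp ⊢
  have h1 : 1 ≤ 2 ^ k := Nat.one_le_two_pow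
  have h2 : p + 1 = 2 * 2 ^ k := by rw [pow_succ'] at hp'; omega
  have ho : Odd p := ⟨2 ^ k - 1, by omega⟩
  have hp0 := hp.pos
  refine ⟨⟨by positivity, p, p ^ 2, hp0, by positivity, ⟨2 ^ k * p ^ 2, by ring⟩,
    ⟨2 ^ k * p, by ring⟩, ?_, ?_⟩, k, p, hk, hp, ho, rfl⟩
  · have := hp.two_le
    nlinarith
  · have h3 := sigma_eq k p 3 hp ho
    have h4 : (p : ℤ) + 1 = 2 * 2 ^ k := by exact_mod_cast h2
    apply Int.natCast_inj.1
    rw [h3]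
    push_cast
    simp only [sum_range_succ, range_zero, sum_empty]
    linear_combination (-(1 + p + p ^ 2 : ℤ)) * h4

lemma mers_fin : Mers.Finite ↔ {j : ℕ | (2 ^ j - 1).Prime}.Finite := by
  constructor
  · intro h
    obtain ⟨N, hN⟩ := h.bddAbove
    refine (Set.finite_le_nat (N + 1)).subset ?_
    intro j hj
    simp only [Set.mem_setOf_eq] at hj ⊢
    rcases Nat.lt_or_ge j 2 with h2 | h2
    · omega
    · obtain ⟨k, rfl⟩ : ∃ k, j = k + 1 := ⟨j - 1, by omega⟩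
      have h3 := hN ⟨k, by omega, hj, rfl⟩
      have h4 : k < 2 ^ k := Nat.lt_two_pow_self
      have h5 : 2 ^ k ≤ 2 ^ k * (2 ^ (k + 1) - 1) ^ 3 :=
        Nat.le_mul_of_pos_right _ (pow_pos hj.pos 3)
      omega
  · intro h
    refine (h.image fun j => 2 ^ (j - 1) * (2 ^ j - 1) ^ 3).subset ?_
    rintro x ⟨k, -, hp, rfl⟩
    exact ⟨k + 1, hp, by simp⟩

end Pool.Agent.H.MP_24a6f7_nt
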